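import Mathlib
import Pool.Agent.X130.RB.UndNP

set_option autoImplicit false

/-!
# The unweighted undirected red-blue `s`-`t` cut problem is NP-complete

The reduction is from CLIQUE. Let `G` be a graph with `m` edges and `k ≥ 2`. Take the vertices of `G`
and two new vertices `s`, `t`; for every edge `uv` of `G` put a red triangle `s u v`, in which the
edges `su` and `sv` are subdivided once (so that the graph stays simple); join every vertex of `G` to
`t` by a blue edge. If `X` contains `s` and not `t`, and `U` is the set of the vertices of `G` in `X`,
then `δ(X)` contains `|U|` blue edges and at least `2 (m - e(U))` red edges, with equality when the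
subdivision vertices are in `X`. So there is a cut with at most `k` blue and `2 (m - k (k - 1) / 2)` red
edges iff `G` has a set `U` of at most `k` vertices spanning at least `k (k - 1) / 2` edges, i.e. a
clique with `k` vertices.
-/

namespace Pool.Agent.Results.MP_ad21dd_lc.STCutNPComplete

open Pool.Agent.NPC Pool.Agent.X130.RB

/-- The unweighted red-blue `s`-`t` cut problem on undirected simple graphs is `NP`-complete (in
`NP`, and `NP`-hard under polynomial-time many-one reductions). -/
theorem result : InNPP STCut ∧ NPHardP STCut := ⟨mem, hard⟩

end Pool.Agent.Results.MP_ad21dd_lc.STCutNPComplete
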